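import Pool.Agent.H69.LQ.Lib

/-!
# LQ, row CO: continuity of means and derivatives of means over spheres
-/

set_option autoImplicit false

open MeasureTheory Metric Set
open scoped ENNReal
open Pool.Agent.H85.LK (E adm lam Ann)
open Pool.Agent.H69.LQ

namespace Pool.Agent.H1.LQ

theorem co_cont {N : ℕ} (G : ℝ × Sp N → ℝ) (hG : Continuous G) :
    Continuous fun r : ℝ => av fun θ => G (r, θ) := by
  unfold av
  have h := continuous_parametric_integral_of_continuous
    (μ := mS N) (f := fun (r : ℝ) (θ : Sp N) => G (r, θ)) hG isCompact_univ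
  simpa using h

theorem co_rs {N : ℕ} {v : E N → ℝ} (hv : ContDiff ℝ (⊤ : ℕ∞) v) :
    Continuous (fun q : ℝ × Sp N => rs v q.1 q.2) := by
  unfold rs
  exact hv.continuous.comp (continuous_fst.smul (continuous_subtype_val.comp continuous_snd))

theorem co_dr {N : ℕ} {v : E N → ℝ} (hv : ContDiff ℝ (⊤ : ℕ∞) v) :
    Continuous (fun q : ℝ × Sp N => dr v q.1 q.2) := by
  unfold dr
  have h1 : Continuous (fderiv ℝ v) := hv.continuous_fderiv (by simp)
  have h2 : Continuous (fun q : ℝ × Sp N => q.1 • (q.2 : E N)) :=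
    continuous_fst.smul (continuous_subtype_val.comp continuous_snd)
  exact (h1.comp h2).clm_apply (continuous_subtype_val.comp continuous_snd)

theorem co_deriv {N : ℕ} {v : E N → ℝ} (hv : ContDiff ℝ (⊤ : ℕ∞) v) (r : ℝ) (θ : Sp N) :
    HasDerivAt (fun r => rs v r θ) (dr v r θ) r := by
  unfold rs dr
  have h1 : HasDerivAt (fun r : ℝ => r • (θ : E N)) (θ : E N) r := by
    simpa using (hasDerivAt_id r).smul_const (θ : E N)
  have h2 : HasFDerivAt v (fderiv ℝ v (r • (θ : E N))) (r • (θ : E N)) :=
    (hv.differentiable (by simp)).differentiableAt.hasFDerivAt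
  exact h2.comp_hasDerivAt r h1

theorem pf_CO : T_CO := by
  intro N _
  refine ⟨fun G hG => co_cont G hG, fun v hv => ⟨co_rs hv, co_dr hv, co_deriv hv, ?_⟩⟩
  intro P hP r
  have hK : IsCompact (closedBall r 1 ×ˢ (univ : Set (Sp N))) :=
    (isCompact_closedBall r 1).prod isCompact_univ
  have hc : Continuous (fun q : ℝ × Sp N => dr v q.1 q.2 * P q.2) :=
    (co_dr hv).mul (hP.comp continuous_snd)
  have hc0 : Continuous (fun q : ℝ × Sp N => rs v q.1 q.2 * P q.2) :=
    (co_rs hv).mul (hP.comp continuous_snd)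
  obtain ⟨M, hM⟩ := hK.exists_bound_of_continuousOn hc.continuousOn
  have hs : ∀ x : ℝ, Continuous (fun θ : Sp N => rs v x θ * P θ) := fun x =>
    hc0.comp (continuous_const.prodMk continuous_id)
  have hs' : ∀ x : ℝ, Continuous (fun θ : Sp N => dr v x θ * P θ) := fun x =>
    hc.comp (continuous_const.prodMk continuous_id)
  have h := hasDerivAt_integral_of_dominated_loc_of_deriv_le (μ := mS N) (𝕜 := ℝ)
    (bound := fun _ => M) (F := fun x θ => rs v x θ * P θ) (F' := fun x θ => dr v x θ * P θ)
    (x₀ := r) (s := ball r 1) (ball_mem_nhds r one_pos)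
    (Filter.Eventually.of_forall fun x => (BM_cont (hs x)).integrable.aestronglyMeasurable)
    (BM_cont (hs r)).integrable
    (BM_cont (hs' r)).integrable.aestronglyMeasurable
    (ae_of_all _ fun θ x hx => hM (x, θ) ⟨ball_subset_closedBall hx, mem_univ θ⟩)
    (integrable_const M)
    (ae_of_all _ fun θ x _ => (co_deriv hv x θ).mul_const (P θ))
  exact h.2

end Pool.Agent.H1.LQ
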