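import Pool.Agent.H7.LP.Targets3

/-! Row CSE of the board `lpq_modules` (problem MP_5607ba_lc): closed sets with the same code are
equal. -/

set_option autoImplicit false

open Set Filter Topology

namespace Pool.Agent.H1.LQ

open Pool.Agent.H7.LP Pool.Agent.H7.LQ Pool.Agent.H93.CP

theorem pf_CSE : T_CSE := by
  intro G _ _ B F F' hF hF' h
  have key : ∀ F F' : Set G, IsClosed F' →
      (∀ p, (F ∩ B.U p).Nonempty → (F' ∩ B.U p).Nonempty) → F ⊆ F' := by
    intro F F' hF' h a ha
    by_contra ha'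
    obtain ⟨p, hp, hpU⟩ := B.bas a F'ᶜ (hF'.isOpen_compl.mem_nhds ha')
    obtain ⟨b, hb, hb'⟩ := h p ⟨a, ha, hp⟩
    exact hpU hb' hb
  exact Set.Subset.antisymm (key F F' hF' fun p => (h p).1) (key F' F hF fun p => (h p).2)

end Pool.Agent.H1.LQ
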