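import Pool.Agent.H7.LP.Targets3

/-! Row CVG of the board `lpq_modules` (problem MP_5607ba_lc): convergence for nodes. -/

set_option autoImplicit false

open Set Filter Topology

namespace Pool.Agent.H1.LQ

open Pool.Agent.H7.LP Pool.Agent.H7.LQ Pool.Agent.H93.CP

theorem pf_CVG (h1 : Pool.Agent.H7.LP.T_CJP) (h2 : Pool.Agent.H7.LP.T_CV) : T_CVG := by
  intro G _ _ _ _ L k K g g' hR hH hcl hti hA hK hU hU'
  have key : ∀ (s : ℕ) (u : G), (g (s + 1) * (g s)⁻¹)⁻¹ * (g (s + 1) * u * (g (s + 1))⁻¹) *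
      (g (s + 1) * (g s)⁻¹) = g s * u * (g s)⁻¹ := by
    intro s u
    group
  obtain ⟨a, ha⟩ := h2 G (fun s => cj (g s) (L.H (k s))) (fun s => cj (g s) (L.R (k s)))
    (fun s => cj (g s) (K s)) (fun s => (g' s)⁻¹ * g s)
    (fun s => (h1 G (g s) _ (K s) _).1 (L.piece _))
    (fun s u hu => by
      rw [mem_cj] at hu ⊢
      rw [← key s u]
      exact (hA s).mH _ hu)
    (fun s u hu => by
      rw [mem_cj] at hu ⊢
      rw [← key s u]
      exact (hA s).mR _ hu)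
    (fun s u hu => by
      rw [mem_cj] at hu ⊢
      rw [← key s u]
      exact (hA s).mK _ hu)
    (fun s => (h1 G (g s) (L.R (k s)) _ (L.H (k s))).2.2 (hcl s))
    (fun s u hu => by
      rw [mem_cj] at hu ⊢
      exact hR s hu)
    (fun s u hu => by
      rw [mem_cj] at hu ⊢
      exact hH s hu)
    (fun s => (h1 G (g s) _ _ (L.H (k s))).2.1 (hti s))
    (fun s => by
      rw [mem_cj]
      have h5 := (K s).inv_mem (hK s)
      have h6 : ((g (s + 1) * (g s)⁻¹)⁻¹ * (g' (s + 1) * (g' s)⁻¹))⁻¹ =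
          g s * (((g' s)⁻¹ * g s)⁻¹ * ((g' (s + 1))⁻¹ * g (s + 1))) * (g s)⁻¹ := by
        group
      rw [h6] at h5
      exact h5)
    (fun U hUn => by
      obtain ⟨s, hs⟩ := hU U hUn
      refine ⟨s, fun r hr => ?_⟩
      rw [mem_cj] at hr
      have h5 := hs _ hr
      have h6 : (g s)⁻¹ * (g s * r * (g s)⁻¹) * g s = r := by group
      rwa [h6] at h5)
    (fun U hUn => by
      obtain ⟨s, hs⟩ := hU' U hUn
      refine ⟨s, fun r hr => ?_⟩
      rw [mem_cj] at hr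
      have h5 := hs _ hr
      have h6 : (g' s)⁻¹ * (g s * r * (g s)⁻¹) * g' s =
          (g' s)⁻¹ * g s * r * ((g' s)⁻¹ * g s)⁻¹ := by group
      rwa [h6] at h5)
  refine ⟨a, fun s => ?_⟩
  have h5 := ha s
  rw [mem_cj] at h5
  have h6 : g s * (((g' s)⁻¹ * g s)⁻¹ * a) * (g s)⁻¹ = g' s * a * (g s)⁻¹ := by group
  rwa [h6] at h5

end Pool.Agent.H1.LQ
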