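import Pool.Agent.H7.LP.Targets3
import Pool.Agent.H80.LP.LAB

/-! Row PRQ of the board `lpq_modules` (problem MP_5607ba_lc): the structures of two codes of a point
are isomorphic. -/

set_option autoImplicit false

open Set Filter Topology

namespace Pool.Agent.H1.LQ

open Pool.Agent.H7.LP Pool.Agent.H7.LQ Pool.Agent.H93.CP

section

variable {G X : Type} [Group G] [TopologicalSpace G] [IsTopologicalGroup G] [MeasurableSpace X]
  {M : Subgroup G} [MulAction M X]

omit [IsTopologicalGroup G] in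
private lemma KK_le (R H : Subgroup G) (y : ℕ → Set G) (N : Set G) : KK R H y N ≤ Stb H y :=
  (Subgroup.closure_le _).2 fun _ hh => hh.1

private lemma lb_eq {B : Bs G} {L : LPD G} {Y : Hit M X} {k m : ℕ} {x : X} {g u : G}
    (hu : u ∈ KX B L Y k m x g) : lb L Y k x (u * g) = lb L Y k x g := by
  have h1 := KK_le _ _ _ _ hu
  have h2 := (Pool.Agent.H80.LP.pf_LAB G).2.1 (L.R k) (L.H k) (tr g (Y.C x)) (L.piece k) u h1.1
  have h3 : lb L Y k x (u * g) = tr u (lb L Y k x g) := by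
    unfold lb
    rw [tr_mul, h2]
  rw [h3]
  exact h1.2

private lemma KX_eq {B : Bs G} {L : LPD G} {Y : Hit M X} {k m : ℕ} {x : X} {g u : G}
    (hu : u ∈ KX B L Y k m x g) : KX B L Y k m x (u * g) = KX B L Y k m x g := by
  unfold KX
  rw [lb_eq hu]

/-- the value of a node: level, number, right coset -/
private def fv (B : Bs G) (L : LPD G) (Y : Hit M X) (x : X) (v : ℕ × ℕ × G) : ℕ × ℕ × Set G :=
  (v.1, v.2.1, {a | a * (v.2.2)⁻¹ ∈ KX B L Y v.1 v.2.1 x v.2.2})

private lemma fv_eq {B : Bs G} {L : LPD G} {Y : Hit M X} {x : X} {v w : ℕ × ℕ × G}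
    (h1 : w.1 = v.1) (h2 : w.2.1 = v.2.1)
    (h3 : v.2.2 * (w.2.2)⁻¹ ∈ KX B L Y v.1 v.2.1 x w.2.2) : fv B L Y x w = fv B L Y x v := by
  obtain ⟨k, m, g⟩ := v
  obtain ⟨k', m', g'⟩ := w
  simp only at h1 h2 h3
  subst h1 h2
  unfold fv
  simp only
  have h4 := KX_eq h3
  rw [inv_mul_cancel_right] at h4
  rw [h4]
  congr 2
  ext a
  rw [mem_setOf_eq, mem_setOf_eq]
  constructor
  · intro ha
    have h5 : a * g⁻¹ = (a * g'⁻¹) * (g * g'⁻¹)⁻¹ := by group
    rw [h5]
    exact Subgroup.mul_mem _ ha (Subgroup.inv_mem _ h3)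
  · intro ha
    have h5 : a * g'⁻¹ = (a * g⁻¹) * (g * g'⁻¹) := by group
    rw [h5]
    exact Subgroup.mul_mem _ ha h3

end

theorem pf_PRQ (h2 : T_INQ) (h3 : Pool.Agent.H7.LP.T_MAT) : T_PRQ := by
  intro G X _ _ _ _ _ _ B L M _ Y S x e e' w w' he he' hw hw'
  have key : ∀ (f g : ℕ → ℕ × ℕ × G), IsCd B S x f → IsCd B S x g → ∀ j N, ∃ i, N ≤ i ∧
      fv B L Y x (f i) = fv B L Y x (g j) := by
    intro f g hf hg j N
    obtain ⟨i, hi, a, b, c⟩ := hf.all (g j).1 (g j).2.1 (g j).2.2 (hg.node j) N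
    exact ⟨i, hi, fv_eq a b c⟩
  obtain ⟨π, hπ⟩ := h3 (ℕ × ℕ × Set G) (fun i => fv B L Y x (e i)) (fun i => fv B L Y x (e' i))
    (key e e he he) (key e' e he' he) (key e e' he he') (key e' e' he' he')
  have hc : ∀ i, (e' i).1 = (e (π i)).1 ∧ (e' i).2.1 = (e (π i)).2.1 ∧
      (e' i).2.2 * ((e (π i)).2.2)⁻¹ ∈
        KX B L Y (e (π i)).1 (e (π i)).2.1 x (e (π i)).2.2 := by
    intro i
    have h4 := hπ i
    unfold fv at h4
    rw [Prod.mk.injEq, Prod.mk.injEq] at h4
    obtain ⟨a, b, c⟩ := h4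
    refine ⟨a, b, ?_⟩
    have h5 : (e' i).2.2 ∈ {a | a * ((e' i).2.2)⁻¹ ∈
        KX B L Y (e' i).1 (e' i).2.1 x (e' i).2.2} := by
      rw [mem_setOf_eq, mul_inv_cancel]
      exact Subgroup.one_mem _
    rw [c] at h5
    exact h5
  have hcd : IsCd B S x (fun i => e (π i)) := by
    refine ⟨fun i => he.node (π i), fun k m g hg N => ?_⟩
    obtain ⟨j, hj, a, b, c⟩ := he.all k m g hg ((Finset.range N).sup π + 1)
    refine ⟨π.symm j, ?_, ?_⟩
    · by_contra hlt
      have h4 : π (π.symm j) ≤ (Finset.range N).sup π :=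
        Finset.le_sup (f := π) (Finset.mem_range.2 (not_le.1 hlt))
      rw [Equiv.apply_symm_apply] at h4
      omega
    · simp only [Equiv.apply_symm_apply]
      exact ⟨a, b, c⟩
  have hst : IsSt B L Y x (fun i => e (π i)) (fun i => w.1 (π i), fun i j => w.2 (π i) (π j)) :=
    ⟨fun i => hw.k (π i), fun i => hw.m (π i), fun i => hw.y (π i),
      fun i j => hw.le (π i) (π j), fun i j p => hw.q (π i) (π j) p⟩
  have hst' := (h2 G X B L M Y S x (fun i => e (π i)) e' hcd hc).2 _ hst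
  refine ⟨π, fun i => ?_, fun i j => ?_⟩
  · have a := hw'.k i
    have b := hw'.m i
    have c := hw'.y i
    have a' := hst'.k i
    have b' := hst'.m i
    have c' := hst'.y i
    simp only at a' b' c'
    refine Prod.ext (a.trans a'.symm) (Prod.ext (b.trans b'.symm) ?_)
    funext t
    obtain ⟨n, p⟩ := t
    rw [Bool.eq_iff_iff]
    exact (c n p).trans (c' n p).symm
  · have a := hw'.le i j
    have b := hw'.q i j
    have a' := hst'.le i j
    have b' := hst'.q i j
    simp only at a' b'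
    refine Prod.ext ?_ ?_
    · rw [Bool.eq_iff_iff]
      exact a.trans a'.symm
    · funext p
      rw [Bool.eq_iff_iff]
      exact (b p).trans (b' p).symm

end Pool.Agent.H1.LQ
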