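import Pool.Agent.H69.LQ.Lib

/-!
# LQ, row QU: perturbation of the norms of the parts of a function on the sphere
-/

set_option autoImplicit false

open MeasureTheory Metric Set
open scoped ENNReal
open Pool.Agent.H85.LK (E adm lam Ann)
open Pool.Agent.H69.LQ

namespace Pool.Agent.H1.LQ

variable {N : ℕ}

theorem qu_key (x y : ℝ) {s : ℝ} (hs : 0 < s) :
    |(x + y) ^ 2 - x ^ 2| ≤ s * x ^ 2 + (1 + 1 / s) * y ^ 2 := by
  have h1 : 0 ≤ (s * x - y) ^ 2 / s := by positivity
  have h2 : 0 ≤ (s * x + y) ^ 2 / s := by positivity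
  have e1 : (s * x - y) ^ 2 / s = s * x ^ 2 - 2 * (x * y) + 1 / s * y ^ 2 := by
    field_simp
    ring
  have e2 : (s * x + y) ^ 2 / s = s * x ^ 2 + 2 * (x * y) + 1 / s * y ^ 2 := by
    field_simp
    ring
  rw [e1] at h1
  rw [e2] at h2
  rw [abs_le]
  constructor
  · nlinarith [sq_nonneg y]
  · nlinarith [sq_nonneg y]

theorem qu_c1 {F G : Sp N → ℝ} (hF : BM F) (hG : BM G) (j : Fin N) :
    c1 (fun θ => F θ + G θ) j = c1 F j + c1 G j := by
  unfold c1
  have h : av (fun θ : Sp N => (F θ + G θ) * (θ : E N) j) =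
      av (fun θ : Sp N => F θ * (θ : E N) j) + av (fun θ : Sp N => G θ * (θ : E N) j) := by
    rw [← av_add (hF.mul (BM_coord j)) (hG.mul (BM_coord j))]
    congr 1
    funext θ
    ring
  rw [h]
  ring

theorem qu_c2 {F G : Sp N → ℝ} (hF : BM F) (hG : BM G) (j k : Fin N) :
    c2 (fun θ => F θ + G θ) j k = c2 F j k + c2 G j k := by
  unfold c2
  have h : av (fun θ : Sp N => (F θ + G θ) * ((θ : E N) j * (θ : E N) k)) =
      av (fun θ : Sp N => F θ * ((θ : E N) j * (θ : E N) k)) +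
        av (fun θ : Sp N => G θ * ((θ : E N) j * (θ : E N) k)) := by
    rw [← av_add (hF.mul ((BM_coord j).mul (BM_coord k))) (hG.mul ((BM_coord j).mul (BM_coord k)))]
    congr 1
    funext θ
    ring
  rw [h, av_add hF hG]
  split_ifs <;> ring

theorem qu_r3 {F G : Sp N → ℝ} (hF : BM F) (hG : BM G) (θ : Sp N) :
    r3 (fun θ => F θ + G θ) θ = r3 F θ + r3 G θ := by
  unfold r3
  rw [av_add hF hG]
  simp only [qu_c1 hF hG, qu_c2 hF hG, add_mul, Finset.sum_add_distrib]
  ring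

theorem qu_bm {F : Sp N → ℝ} (hF : BM F) : BM (r3 F) := by
  have h1 : BM (fun θ : Sp N => F θ - av F) := hF.sub (BM_const _)
  have h2 : BM (fun θ : Sp N => ∑ j, c1 F j * (θ : E N) j) :=
    BM.sum _ fun j _ => (BM_coord j).const_mul _
  have h3 : BM (fun θ : Sp N => ∑ j, ∑ k, c2 F j k * ((θ : E N) j * (θ : E N) k)) :=
    BM.sum _ fun j _ => BM.sum _ fun k _ => ((BM_coord j).mul (BM_coord k)).const_mul _
  exact (h1.sub h2).sub h3

theorem pf_QU : T_QU := by
  intro N F G s _ hF hG hs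
  refine ⟨?_, ?_, ?_, ?_⟩
  · unfold n0
    rw [av_add hF hG]
    exact qu_key _ _ hs
  · unfold n1
    simp only [qu_c1 hF hG]
    rw [← sub_div, abs_div, Nat.abs_cast, mul_div_assoc', mul_div_assoc', ← add_div,
      ← Finset.sum_sub_distrib, Finset.mul_sum, Finset.mul_sum, ← Finset.sum_add_distrib]
    refine div_le_div_of_nonneg_right ?_ (Nat.cast_nonneg N)
    exact (Finset.abs_sum_le_sum_abs _ _).trans (Finset.sum_le_sum fun j _ => qu_key _ _ hs)
  · unfold n2
    simp only [qu_c2 hF hG]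
    have hc : (0 : ℝ) ≤ 2 / ((N : ℝ) * ((N : ℝ) + 2)) := by positivity
    have h : |(∑ j, ∑ k, (c2 F j k + c2 G j k) ^ 2) - ∑ j, ∑ k, c2 F j k ^ 2| ≤
        s * (∑ j, ∑ k, c2 F j k ^ 2) + (1 + 1 / s) * ∑ j, ∑ k, c2 G j k ^ 2 := by
      simp only [← Finset.sum_sub_distrib, Finset.mul_sum, ← Finset.sum_add_distrib]
      refine (Finset.abs_sum_le_sum_abs _ _).trans (Finset.sum_le_sum fun j _ => ?_)
      exact (Finset.abs_sum_le_sum_abs _ _).trans (Finset.sum_le_sum fun k _ => qu_key _ _ hs)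
    rw [← mul_sub, abs_mul, abs_of_nonneg hc]
    refine (mul_le_mul_of_nonneg_left h hc).trans (le_of_eq ?_)
    ring
  · unfold n3
    have hf := qu_bm hF
    have hg := qu_bm hG
    simp only [qu_r3 hF hG]
    rw [← av_const_mul, ← av_const_mul, ← av_sub ((hf.add hg).pow 2) (hf.pow 2),
      ← av_add ((hf.pow 2).const_mul s) ((hg.pow 2).const_mul _)]
    exact abs_av_le (((hf.add hg).pow 2).sub (hf.pow 2))
      (((hf.pow 2).const_mul s).add ((hg.pow 2).const_mul _)) fun θ => qu_key _ _ hs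

end Pool.Agent.H1.LQ
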